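import Mathlib

set_option autoImplicit false

/-! Monotone reversible Markov chains on finite partially ordered sets. -/

namespace Pool.Agent.N983.MC

open Matrix

/-- total variation distance: the maximum over the sets of states -/
noncomputable def TV {Ω : Type} [Fintype Ω] [DecidableEq Ω] (μ ν : Ω → ℝ) : ℝ :=
  (Finset.univ : Finset (Finset Ω)).sup' Finset.univ_nonempty
    fun A => |∑ z ∈ A, μ z - ∑ z ∈ A, ν z|

/-- `K t`, `t ∈ S`, are the transition kernels of a monotone reversible chain on `Ω` -/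
structure MonRev (Ω : Type) [Fintype Ω] [DecidableEq Ω] [PartialOrder Ω] (S : Set ℝ)
    (K : ℝ → Matrix Ω Ω ℝ) : Prop where
  zero : K 0 = 1
  semigroup : ∀ s ∈ S, ∀ t ∈ S, K (s + t) = K s * K t
  cont : ContinuousOn K S
  nonneg : ∀ t ∈ S, ∀ x y, 0 ≤ K t x y
  sum_one : ∀ t ∈ S, ∀ x, ∑ y, K t x y = 1
  monotone : ∀ t ∈ S, ∀ x y, x ≤ y → ∀ A : Finset Ω, (∀ u ∈ A, ∀ v, u ≤ v → v ∈ A) →
    ∑ z ∈ A, K t x z ≤ ∑ z ∈ A, K t y z
  reversible : ∃ π : Ω → ℝ, (∀ x, 0 < π x) ∧ ∑ x, π x = 1 ∧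
    ∀ t ∈ S, ∀ x y, π x * K t x y = π y * K t y x

/-- The extremal pair of starting points does not maximise the total variation distance. -/
def Fails (Ω : Type) [Fintype Ω] [DecidableEq Ω] [PartialOrder Ω] [BoundedOrder Ω] (S : Set ℝ)
    (K : ℝ → Matrix Ω Ω ℝ) : Prop :=
  ∃ t ∈ S, ∃ x y : Ω, TV (K t ⊤) (K t ⊥) < TV (K t x) (K t y)

/-- the statement: there are a finite partially ordered set with a maximum and a minimum and a
monotone reversible chain in discrete time (times `0, 1, 2, …`), and also one in continuous time,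
for which the extremal pair of starting points does not maximise the total variation distance -/
def Stm : Prop :=
  ∃ (Ω : Type) (_ : Fintype Ω) (_ : DecidableEq Ω) (_ : PartialOrder Ω) (_ : BoundedOrder Ω),
    (∃ K : ℝ → Matrix Ω Ω ℝ, MonRev Ω (Set.range ((↑) : ℕ → ℝ)) K ∧
      Fails Ω (Set.range ((↑) : ℕ → ℝ)) K) ∧
    (∃ K : ℝ → Matrix Ω Ω ℝ, MonRev Ω (Set.Ici 0) K ∧ Fails Ω (Set.Ici 0) K)

end Pool.Agent.N983.MC
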