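import Pool.Agent.N983.MC.Def

/-!
# A monotone reversible chain for which the extremal pair does not maximise total variation
-/

set_option autoImplicit false

namespace Pool.Agent.N983.MC

open Matrix Filter Topology

section gen

variable {Ω : Type} [Fintype Ω] [DecidableEq Ω] [PartialOrder Ω]

/-- stochastic, monotone and reversible matrices -/
structure Ok (M : Matrix Ω Ω ℝ) (π : Ω → ℝ) : Prop where
  nonneg : ∀ x y, 0 ≤ M x y
  sum_one : ∀ x, ∑ y, M x y = 1
  mono : ∀ f : Ω → ℝ, Monotone f → Monotone (fun x => ∑ z, M x z * f z)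
  pos : ∀ x, 0 < π x
  psum : ∑ x, π x = 1
  rev : ∀ x y, π x * M x y = π y * M y x

variable {M : Matrix Ω Ω ℝ} {π : Ω → ℝ}

theorem Ok.pow (h : Ok M π) (n : ℕ) : Ok (M ^ n) π := by
  induction n with
  | zero =>
    refine ⟨?_, ?_, ?_, h.pos, h.psum, ?_⟩
    · intro x y
      rw [pow_zero, Matrix.one_apply]; split_ifs <;> norm_num
    · intro x
      simp [Matrix.one_apply]
    · intro f hf
      have : (fun x => ∑ z, (M ^ 0) x z * f z) = f := by
        funext x
        simp [Matrix.one_apply]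
      rw [this]; exact hf
    · intro x y
      rw [pow_zero, Matrix.one_apply, Matrix.one_apply]
      by_cases hxy : x = y
      · subst hxy; rfl
      · rw [if_neg hxy, if_neg (Ne.symm hxy)]; simp
  | succ n ih =>
    refine ⟨?_, ?_, ?_, h.pos, h.psum, ?_⟩
    · intro x y
      rw [pow_succ, Matrix.mul_apply]
      exact Finset.sum_nonneg fun z _ => mul_nonneg (ih.nonneg x z) (h.nonneg z y)
    · intro x
      simp_rw [pow_succ, Matrix.mul_apply]
      rw [Finset.sum_comm]
      simp_rw [← Finset.mul_sum, h.sum_one, mul_one]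
      exact ih.sum_one x
    · intro f hf
      have h1 := ih.mono _ (h.mono f hf)
      have h2 : (fun x => ∑ z, (M ^ (n + 1)) x z * f z) =
          fun x => ∑ w, (M ^ n) x w * ∑ z, M w z * f z := by
        funext x
        simp_rw [pow_succ, Matrix.mul_apply, Finset.sum_mul, Finset.mul_sum]
        rw [Finset.sum_comm]
        refine Finset.sum_congr rfl fun w _ => Finset.sum_congr rfl fun z _ => by ring
      rw [h2]; exact h1
    · intro x y
      have h1 : (M ^ (n + 1)) y x = ∑ z, M y z * (M ^ n) z x := by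
        rw [pow_succ', Matrix.mul_apply]
      rw [h1, pow_succ, Matrix.mul_apply, Finset.mul_sum, Finset.mul_sum]
      refine Finset.sum_congr rfl fun z _ => ?_
      rw [← mul_assoc, ih.rev x z, mul_comm (π z), mul_assoc, h.rev z y]
      ring

theorem Ok.set (h : Ok M π) (x y : Ω) (hxy : x ≤ y) (A : Finset Ω)
    (hA : ∀ u ∈ A, ∀ v, u ≤ v → v ∈ A) : ∑ z ∈ A, M x z ≤ ∑ z ∈ A, M y z := by
  have hf : Monotone (fun z : Ω => if z ∈ A then (1 : ℝ) else 0) := by
    intro u v huv
    dsimp only
    by_cases hu : u ∈ A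
    · rw [if_pos hu, if_pos (hA u hu v huv)]
    · rw [if_neg hu]; split_ifs <;> norm_num
  have h1 := h.mono _ hf hxy
  simpa [mul_ite, Finset.sum_ite_mem] using h1

/-! ### Discrete time -/

omit [Fintype Ω] [DecidableEq Ω] [PartialOrder Ω] in
theorem cont_nat (K : ℝ → Matrix Ω Ω ℝ) : ContinuousOn K (Set.range ((↑) : ℕ → ℝ)) := by
  rintro _ ⟨n, rfl⟩
  have h : (fun _ : ℝ => K (n : ℝ)) =ᶠ[𝓝[Set.range ((↑) : ℕ → ℝ)] (n : ℝ)] K := by
    have h1 : Metric.ball (n : ℝ) 1 ∈ 𝓝 (n : ℝ) := Metric.ball_mem_nhds _ one_pos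
    filter_upwards [self_mem_nhdsWithin, mem_nhdsWithin_of_mem_nhds h1] with y hy hy1
    obtain ⟨m, rfl⟩ := hy
    rw [Metric.mem_ball, Real.dist_eq] at hy1
    have : m = n := by
      have h2 := abs_lt.1 hy1
      have h3 : (m : ℝ) < n + 1 := by linarith
      have h4 : (n : ℝ) < m + 1 := by linarith
      norm_cast at h3 h4
      omega
    rw [this]
  exact tendsto_const_nhds.congr' h

theorem Ok.disc (h : Ok M π) :
    MonRev Ω (Set.range ((↑) : ℕ → ℝ)) (fun t => M ^ ⌊t⌋₊) where
  zero := by simp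
  semigroup := by
    rintro _ ⟨m, rfl⟩ _ ⟨n, rfl⟩
    rw [← Nat.cast_add, Nat.floor_natCast, Nat.floor_natCast, Nat.floor_natCast, pow_add]
  cont := cont_nat _
  nonneg t _ x y := (h.pow _).nonneg x y
  sum_one t _ x := (h.pow _).sum_one x
  monotone t _ x y hxy A hA := (h.pow _).set x y hxy A hA
  reversible := ⟨π, h.pos, h.psum, fun t _ x y => (h.pow _).rev x y⟩

/-! ### Continuous time -/

/-- the kernels in continuous time -/
noncomputable def Kc (M : Matrix Ω Ω ℝ) (t : ℝ) : Matrix Ω Ω ℝ :=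
  Real.exp (-t) • NormedSpace.exp (t • M)

omit [PartialOrder Ω] in
set_option backward.isDefEq.respectTransparency false in
theorem hasSum_exp (A : Matrix Ω Ω ℝ) :
    HasSum (fun n : ℕ => ((n.factorial : ℝ)⁻¹) • A ^ n) (NormedSpace.exp A) := by
  open scoped Norms.Operator in exact NormedSpace.exp_series_hasSum_exp' A

omit [PartialOrder Ω] in
set_option backward.isDefEq.respectTransparency false in
theorem cont_exp : Continuous (NormedSpace.exp : Matrix Ω Ω ℝ → Matrix Ω Ω ℝ) := by
  open scoped Norms.Operator in exact NormedSpace.exp_continuous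

omit [PartialOrder Ω] in
theorem hs (M : Matrix Ω Ω ℝ) (t : ℝ) (x y : Ω) :
    HasSum (fun k : ℕ => (Real.exp (-t) * ((k.factorial : ℝ)⁻¹ * t ^ k)) * (M ^ k) x y)
      (Kc M t x y) := by
  have h := hasSum_exp (t • M)
  have h1 := Pi.hasSum.1 (Pi.hasSum.1 h x) y
  have h2 := h1.mul_left (Real.exp (-t))
  rw [Kc, Matrix.smul_apply, smul_eq_mul]
  have h3 : (fun k : ℕ => (Real.exp (-t) * ((k.factorial : ℝ)⁻¹ * t ^ k)) * (M ^ k) x y) =
      fun i : ℕ => Real.exp (-t) * ((i.factorial : ℝ)⁻¹ • (t • M) ^ i) x y := by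
    funext k
    rw [smul_pow, Matrix.smul_apply, Matrix.smul_apply, smul_eq_mul, smul_eq_mul]
    ring
  rw [h3]
  exact h2

theorem hsW (t : ℝ) : HasSum (fun k : ℕ => Real.exp (-t) * ((k.factorial : ℝ)⁻¹ * t ^ k)) 1 := by
  have h := (NormedSpace.exp_series_hasSum_exp' (𝕂 := ℝ) t).mul_left (Real.exp (-t))
  rw [← Real.exp_eq_exp_ℝ, ← Real.exp_add, neg_add_cancel, Real.exp_zero] at h
  exact h

theorem wnn {t : ℝ} (ht : 0 ≤ t) (k : ℕ) :
    0 ≤ Real.exp (-t) * ((k.factorial : ℝ)⁻¹ * t ^ k) := by positivity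

theorem Ok.cts (h : Ok M π) : MonRev Ω (Set.Ici 0) (Kc M) where
  zero := by simp [Kc]
  semigroup := by
    intro s _ t _
    rw [Kc, Kc, Kc, add_smul, Matrix.exp_add_of_commute, neg_add, Real.exp_add,
      Matrix.smul_mul, Matrix.mul_smul, smul_smul]
    exact ((Commute.refl M).smul_left s).smul_right t
  cont := by
    apply Continuous.continuousOn
    unfold Kc
    have h1 : Continuous (fun t : ℝ => NormedSpace.exp (t • M)) :=
      cont_exp.comp (continuous_id.smul continuous_const)
    exact (Real.continuous_exp.comp continuous_neg).smul h1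
  nonneg := by
    intro t ht x y
    exact (hs M t x y).nonneg fun k => mul_nonneg (wnn ht k) ((h.pow k).nonneg x y)
  sum_one := by
    intro t ht x
    have h1 := hasSum_sum (s := Finset.univ) fun y _ => hs M t x y
    have h2 := hsW t
    refine h1.unique ?_
    convert h2 using 2 with k
    rw [← Finset.mul_sum, (h.pow k).sum_one, mul_one]
  monotone := by
    intro t ht x y hxy A hA
    have h1 := hasSum_sum (s := A) fun z _ => hs M t x z
    have h2 := hasSum_sum (s := A) fun z _ => hs M t y z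
    refine hasSum_le (fun k => ?_) h1 h2
    rw [← Finset.mul_sum, ← Finset.mul_sum]
    exact mul_le_mul_of_nonneg_left ((h.pow k).set x y hxy A hA) (wnn ht k)
  reversible := by
    refine ⟨π, h.pos, h.psum, fun t ht x y => ?_⟩
    have h1 := (hs M t x y).mul_left (π x)
    have h2 := (hs M t y x).mul_left (π y)
    refine h1.unique ?_
    convert h2 using 2 with k
    have := (h.pow k).rev x y
    linear_combination (Real.exp (-t) * ((k.factorial : ℝ)⁻¹ * t ^ k)) * this

end gen

/-! ### Total variation -/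

section tv

variable {Ω : Type} [Fintype Ω] [DecidableEq Ω]

theorem tv_ge (μ ν : Ω → ℝ) (A : Finset Ω) : ∑ z ∈ A, μ z - ∑ z ∈ A, ν z ≤ TV μ ν := by
  refine (le_abs_self _).trans ?_
  exact Finset.le_sup' (fun A : Finset Ω => |∑ z ∈ A, μ z - ∑ z ∈ A, ν z|) (Finset.mem_univ A)

theorem tv_le (μ ν : Ω → ℝ) (hμ : ∀ z, 0 ≤ μ z) (hν : ∀ z, 0 ≤ ν z) (h1 : ∑ z, μ z = 1)
    (h2 : ∑ z, ν z = 1) (q : Ω) (c : ℝ) (hc : c ≤ μ q) (hc' : c ≤ ν q) : TV μ ν ≤ 1 - c := by
  have key : ∀ (μ ν : Ω → ℝ), (∀ z, 0 ≤ μ z) → (∀ z, 0 ≤ ν z) → ∑ z, μ z = 1 → ∑ z, ν z = 1 →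
      c ≤ μ q → c ≤ ν q → ∀ A : Finset Ω, ∑ z ∈ A, μ z - ∑ z ∈ A, ν z ≤ 1 - c := by
    intro μ ν hμ hν h1 h2 hc hc' A
    by_cases hq : q ∈ A
    · have h3 : ∑ z ∈ A, μ z ≤ 1 := by
        rw [← h1]; exact Finset.sum_le_univ_sum_of_nonneg hμ
      have h4 : ν q ≤ ∑ z ∈ A, ν z := Finset.single_le_sum (fun z _ => hν z) hq
      linarith
    · have h3 : ∑ z ∈ A, μ z + μ q ≤ 1 := by
        have : ∑ z ∈ insert q A, μ z ≤ 1 := by
          rw [← h1]; exact Finset.sum_le_univ_sum_of_nonneg hμ
        rw [Finset.sum_insert hq] at this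
        linarith
      have h4 : 0 ≤ ∑ z ∈ A, ν z := Finset.sum_nonneg fun z _ => hν z
      linarith
  rw [TV, Finset.sup'_le_iff]
  intro A _
  rw [abs_le]
  constructor
  · have := key ν μ hν hμ h2 h1 hc' hc A
    linarith
  · exact key μ ν hμ hν h1 h2 hc hc' A

end tv

/-! ### The chain -/

/-- the states -/
inductive St | o | a | b | p | q | r | e
  deriving DecidableEq

open St

instance : Fintype St := ⟨{o, a, b, p, q, r, e}, by intro x; cases x <;> decide⟩

/-- the order -/
def leb : St → St → Bool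
  | o, _ => true
  | _, e => true
  | a, a => true
  | b, b => true
  | p, p => true
  | p, q => true
  | p, r => true
  | q, q => true
  | q, r => true
  | r, r => true
  | _, _ => false

instance : LE St := ⟨fun x y => leb x y = true⟩

instance : DecidableRel (α := St) (· ≤ ·) := fun x y => inferInstanceAs (Decidable (leb x y = true))

instance : PartialOrder St where
  le_refl := by decide
  le_trans := by decide
  le_antisymm := by decide

instance : BoundedOrder St where
  top := e
  bot := o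
  le_top := by decide
  bot_le := by decide

theorem top_St : (⊤ : St) = e := rfl
theorem bot_St : (⊥ : St) = o := rfl

theorem sum_St (f : St → ℝ) : ∑ z, f z = f o + f a + f b + f p + f q + f r + f e := by
  have : (Finset.univ : Finset St) = {o, a, b, p, q, r, e} := rfl
  rw [this]
  simp [Finset.sum_insert]
  ring

/-- the conductances -/
def cond : St → St → ℕ
  | o, o => 1
  | o, p => 2
  | p, o => 2
  | o, q => 1
  | q, o => 1
  | e, e => 1
  | e, r => 2
  | r, e => 2
  | e, q => 1
  | q, e => 1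
  | a, p => 1
  | p, a => 1
  | a, r => 1
  | r, a => 1
  | b, q => 1
  | q, b => 1
  | p, p => 3
  | p, q => 3
  | p, r => 3
  | q, p => 3
  | q, q => 3
  | q, r => 3
  | r, p => 3
  | r, q => 3
  | r, r => 3
  | _, _ => 0

/-- the row sums -/
def row : St → ℕ
  | o => 4
  | a => 2
  | b => 1
  | p => 12
  | q => 12
  | r => 12
  | e => 4

/-- the transition matrix -/
noncomputable def M : Matrix St St ℝ := fun x y => (cond x y : ℝ) / row x

theorem M_ok : Ok M (fun x => (row x : ℝ) / 47) where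
  nonneg x y := by unfold M; positivity
  sum_one x := by
    rw [sum_St]
    cases x <;> norm_num [M, cond, row]
  mono f hf := by
    have h1 : f o ≤ f a := hf (by decide)
    have h2 : f o ≤ f b := hf (by decide)
    have h3 : f o ≤ f p := hf (by decide)
    have h4 : f p ≤ f q := hf (by decide)
    have h5 : f q ≤ f r := hf (by decide)
    have h6 : f r ≤ f e := hf (by decide)
    have h7 : f a ≤ f e := hf (by decide)
    have h8 : f b ≤ f e := hf (by decide)
    intro x y hxy
    simp only [sum_St]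
    cases x <;> cases y <;>
      first
      | exact absurd hxy (by decide)
      | (norm_num [M, cond, row]; linarith)
      | norm_num [M, cond, row]
  pos x := by cases x <;> norm_num [row]
  psum := by rw [sum_St]; norm_num [row]
  rev x y := by
    cases x <;> cases y <;> norm_num [M, cond, row]

/-! ### The comparison -/

theorem Ok.two {Ω : Type} [Fintype Ω] [DecidableEq Ω] [PartialOrder Ω] {M : Matrix Ω Ω ℝ}
    {π : Ω → ℝ} (h : Ok M π) {t : ℝ} (ht : 0 ≤ t) (x : Ω) (A : Finset Ω) (h0 : x ∈ A)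
    (h1 : ∑ z ∈ A, M x z = 1) : Real.exp (-t) * (1 + t) ≤ ∑ z ∈ A, Kc M t x z := by
  have h2 := hasSum_sum (s := A) fun z _ => hs M t x z
  have h3 := sum_le_hasSum {0, 1} (fun k _ => Finset.sum_nonneg fun z _ =>
    mul_nonneg (wnn ht k) ((h.pow k).nonneg x z)) h2
  refine le_trans (le_of_eq ?_) h3
  rw [Finset.sum_pair (by norm_num), ← Finset.mul_sum, ← Finset.mul_sum, pow_one M, h1]
  have h4 : ∑ z ∈ A, (M ^ 0) x z = 1 := by
    simp [Matrix.one_apply, h0]
  rw [h4]
  simp
  ring

theorem Ok.one_step {Ω : Type} [Fintype Ω] [DecidableEq Ω] [PartialOrder Ω] {M : Matrix Ω Ω ℝ}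
    {π : Ω → ℝ} (h : Ok M π) {t : ℝ} (ht : 0 ≤ t) (x y : Ω) :
    Real.exp (-t) * t * M x y ≤ Kc M t x y := by
  have h3 := le_hasSum (hs M t x y) 1 (fun k _ => mul_nonneg (wnn ht k) ((h.pow k).nonneg x y))
  refine le_trans (le_of_eq ?_) h3
  simp

theorem fails_disc : Fails St (Set.range ((↑) : ℕ → ℝ)) (fun t => M ^ ⌊t⌋₊) := by
  refine ⟨1, ⟨1, Nat.cast_one⟩, a, b, ?_⟩
  dsimp only
  rw [Nat.floor_one, pow_one, top_St, bot_St]
  have h1 : TV (M e) (M o) ≤ 1 - 1 / 4 := by
    apply tv_le (M e) (M o) (M_ok.nonneg e) (M_ok.nonneg o) (M_ok.sum_one e) (M_ok.sum_one o) q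
    · norm_num [M, cond, row]
    · norm_num [M, cond, row]
  have h2 := tv_ge (M a) (M b) {p, r}
  rw [Finset.sum_pair (by decide), Finset.sum_pair (by decide)] at h2
  have h3 : M a p + M a r - (M b p + M b r) = 1 := by norm_num [M, cond, row]
  rw [h3] at h2
  linarith

theorem exp_small : Real.exp (1 / 10) < 1.1125 := by
  have h1 : Real.exp (1 / 10) ^ 10 < (1.1125 : ℝ) ^ 10 := by
    rw [← Real.exp_nat_mul]
    have h2 := Real.exp_one_lt_d9
    norm_num at h2 ⊢
    linarith
  exact lt_of_pow_lt_pow_left₀ 10 (by norm_num) h1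

theorem fails_cts : Fails St (Set.Ici 0) (Kc M) := by
  refine ⟨1 / 10, by norm_num, a, b, ?_⟩
  rw [top_St, bot_St]
  have ht : (0 : ℝ) ≤ 1 / 10 := by norm_num
  have hm := M_ok.cts
  have ht' : (1 / 10 : ℝ) ∈ Set.Ici (0 : ℝ) := ht
  have h1 : TV (Kc M (1 / 10) e) (Kc M (1 / 10) o) ≤ 1 - Real.exp (-(1 / 10)) * (1 / 10) * (1 / 4) := by
    apply tv_le _ _ (hm.nonneg _ ht' e) (hm.nonneg _ ht' o) (hm.sum_one _ ht' e)
      (hm.sum_one _ ht' o) q
    · have := M_ok.one_step ht e q
      have h : M e q = 1 / 4 := by norm_num [M, cond, row]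
      rwa [h] at this
    · have := M_ok.one_step ht o q
      have h : M o q = 1 / 4 := by norm_num [M, cond, row]
      rwa [h] at this
  have h2 := tv_ge (Kc M (1 / 10) a) (Kc M (1 / 10) b) {a, p, r}
  have h3 := M_ok.two ht a {a, p, r} (by decide) (by
    rw [Finset.sum_insert (by decide), Finset.sum_pair (by decide)]
    norm_num [M, cond, row])
  have h4 := M_ok.two ht b {b, q} (by decide) (by
    rw [Finset.sum_pair (by decide)]
    norm_num [M, cond, row])
  have h5 := hm.sum_one _ ht' b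
  rw [sum_St] at h5
  rw [Finset.sum_insert (by decide), Finset.sum_pair (by decide), Finset.sum_insert (by decide),
    Finset.sum_pair (by decide)] at h2
  rw [Finset.sum_insert (by decide), Finset.sum_pair (by decide)] at h3
  rw [Finset.sum_pair (by decide)] at h4
  have h6 := hm.nonneg _ ht' b o
  have h7 := hm.nonneg _ ht' b e
  have h8 : Real.exp (-(1 / 10)) * 1.1125 > 1 := by
    have h9 : Real.exp (-(1 / 10)) * Real.exp (1 / 10) = 1 := by
      rw [← Real.exp_add, neg_add_cancel, Real.exp_zero]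
    have h10 := mul_lt_mul_of_pos_left exp_small (Real.exp_pos (-(1 / 10)))
    rw [h9] at h10
    exact h10
  norm_num at h1 h2 h3 h4 h5 h6 h7 h8 ⊢
  linarith

/-- There is a monotone reversible chain, in discrete time and in continuous time, for which the
extremal pair of starting points does not maximise the total variation distance. -/
theorem t_MC : Stm :=
  ⟨St, inferInstance, inferInstance, inferInstance, inferInstance,
    ⟨_, M_ok.disc, fails_disc⟩, ⟨_, M_ok.cts, fails_cts⟩⟩

end Pool.Agent.N983.MC
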